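import Pool.Agent.X222.LR.Two

/-!
# Grothendieck's conjecture in torsor form follows from the linear relations between the periods of the adjoint object

Let `K` be the field of algebraic numbers (or any countable subfield of `ℂ` which is algebraically closed in `ℂ`, for
example the algebraic closure of the field generated by the periods of some other motives). Let `M` be a motive over `K` with
period matrix `c = (β_ij) ∈ GL_n(ℂ)`, and let `P ⊂ GL_n` be the irreducible component with `c ∈ P` of the torsor of motivic
periods. It is a `K`-torsor: defined by polynomials over `K`, and closed under `x y⁻¹ z`. Its group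
`G = {x y⁻¹ : x, y ∈ P}` is the connected component of the motivic Galois group. Grothendieck's conjecture says
that no proper closed subset of `P` over `K` contains `c`; its torsor form says that `P` is the smallest `K`-subtorsor
`Ω_c` of `GL_n` which contains `c` (this is the statement about all de Rham-Betti classes in all tensor constructions and
about their subobjects).

Let `𝔤_dR = {w : P is tangent at x to x w, for all x ∈ P}` be the Lie algebra of the motivic Galois group on the de Rham side,
a `K`-space of matrices. For `w ∈ 𝔤_dR` the entries of `c w c⁻¹ ∈ 𝔤_B ⊗ ℂ` are the periods of the vector `w` of the adjoint object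
`Lie(M) ⊂ End(M) = M ⊗ M^∨`.

**Theorem.** Suppose that for each `w ∈ 𝔤_dR` over `K` the `K`-linear relations between `1` and the entries of
`c w c⁻¹` hold on `P` (with `x w x⁻¹` for `x ∈ P`, that is, they are motivic). Then

1. every `K`-subtorsor `T` of `GL_n`, of any degree, with `c ∈ T` is stable under all products of commutators of elements
   of `G`. So `Ω_c ⊇ [G, G] c`: if `G` is reductive (as is the case for pure motives, for example André's
   motivated motives) the smallest subtorsor is known up to the centre of `G`;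
2. if `G = 𝔾_m · [G, G]` with `𝔾_m` the homotheties (the Mumford-Tate groups of most motives of nonzero weight are of
   this kind) and `det c ∉ K` (for a motive of weight `w ≠ 0`, `det c` is an algebraic number times `(2 π i)^(n w / 2)`), then
   `Ω_c = P`: the torsor form of the conjecture holds for `M`.

In other words: each failure of the torsor form, given by whatever tensors or subobjects of tensor constructions, is seen
by a linear relation over `K` between `1` and the periods of one vector of the adjoint object which does not come from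
motives; no relations of higher degree and no other tensor constructions have to be considered.
The group `G` is arbitrary. The starting results and the other new results on this topic (`BigMonodromyTorsors`;
`QuadraticRelations`, `HyperellipticSmallestSubtorsor` under MP_f11a48_ag) are about symplectic, orthogonal or special linear
groups, or about groups generated by unipotent elements and almost all fibres of families. For the symplectic
group `𝔤_dR` is the symmetric square of `M`, up to a twist, and the hypothesis is weaker than the one of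
`QuadraticRelations`.

The proof (`Pool/Agent/X222/LR`). Let `T ⊆ P`, let `𝔥` and `𝔤` be the Lie algebras of `T` and `P` on the Betti side, `𝔥'` and
`𝔤'` on the de Rham side; they are defined over `K` and `x 𝔥' x⁻¹ = 𝔥` for `x ∈ T` (`Pool/Agent/Y123/ST`, starting library).
(i) That `c w c⁻¹ ∈ 𝔥` for `w ∈ 𝔥'` is a system of linear relations of the above kind, so it holds for all `x ∈ P`; hence `𝔥` is
stable under `G`, and by differentiating `[𝔤, 𝔥] ⊆ 𝔥` (`br`). (ii) For `w ∈ 𝔤'` over `K` and a linear form `μ` over `K` which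
vanishes on `𝔥`, the number `z = μ(c w c⁻¹)` is killed by all derivations `D` of `ℂ` over `K`, since
`D(c) c⁻¹ ∈ 𝔥`; so `z ∈ K`, and `μ(c w c⁻¹) = z` is again a linear relation of the above kind. Hence it
holds on `P`, so `G` acts trivially on `𝔤 / 𝔥` (`triv`). (iii) Let `g ∈ G` and let `x` be a generic point of `P` over
a countable algebraically closed field `K₁` which contains `K` and the entries of `g` and `c` (`exists_gen`), `h = x c⁻¹` and
`y = [g, h] c`. Then `D(y) y⁻¹ ∈ 𝔥` for all derivations `D` of `ℂ` over `K₁` by (ii); hence the coset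
`T c⁻¹ y` is defined over `K₁`, and as `y` specialises to `c` for `x → c` it contains `c`, so `y ∈ T` (`mem_of_spec`).
So all `[g, h] c`, `h ∈ G`, are in `T`. (iv) For 2 one uses in addition the automorphisms of `ℂ` over `K`: if `T`
contained only finitely many multiples of `c` then a power of `det c` would be fixed by all of them.
-/

set_option autoImplicit false

open Matrix

namespace Pool.Agent.Results.MP_caab05_ag.AdjointPeriods

/-- `T` is (the set of complex points of) a `K`-subtorsor of `GL_n`: it is closed under `x y⁻¹ z`, and it is defined in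
`GL_n` by polynomials with coefficients in `K`. -/
def IsSubtorsor {n : ℕ} (K : Subfield ℂ) (T : Set (Matrix (Fin n) (Fin n) ℂ)) : Prop :=
  (∀ x ∈ T, ∀ y ∈ T, ∀ z ∈ T, x * y⁻¹ * z ∈ T) ∧
    ∃ I : Set (MvPolynomial (Fin n × Fin n) K), ∀ x : Matrix (Fin n) (Fin n) ℂ, x ∈ T ↔
      IsUnit x ∧ ∀ p ∈ I, MvPolynomial.eval (fun b => x b.1 b.2) (MvPolynomial.map (algebraMap K ℂ) p) = 0

/-- `Ω` is the smallest `K`-subtorsor which contains the matrix `c`. -/
def IsOmega {n : ℕ} (K : Subfield ℂ) (c : Matrix (Fin n) (Fin n) ℂ) (Ω : Set (Matrix (Fin n) (Fin n) ℂ)) : Prop :=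
  IsSubtorsor K Ω ∧ c ∈ Ω ∧ ∀ T : Set (Matrix (Fin n) (Fin n) ℂ), IsSubtorsor K T → c ∈ T → Ω ⊆ T

/-- The polynomial `p` vanishes on `P`. -/
def VanishesOn {n : ℕ} (P : Set (Matrix (Fin n) (Fin n) ℂ)) (p : MvPolynomial (Fin n × Fin n) ℂ) : Prop :=
  ∀ x ∈ P, MvPolynomial.eval (fun b => x b.1 b.2) p = 0

/-- The set `P` of complex matrices is irreducible for the Zariski topology. -/
def IsIrred {n : ℕ} (P : Set (Matrix (Fin n) (Fin n) ℂ)) : Prop :=
  ∀ p q : MvPolynomial (Fin n × Fin n) ℂ, VanishesOn P (p * q) → VanishesOn P p ∨ VanishesOn P q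

/-- The Lie algebra of the torsor `P` on the de Rham side: the matrices `w` such that `x w` is tangent to `P` at `x`, for
all `x ∈ P`. -/
def lieDR {n : ℕ} (P : Set (Matrix (Fin n) (Fin n) ℂ)) : Set (Matrix (Fin n) (Fin n) ℂ) :=
  {w | ∀ p : MvPolynomial (Fin n × Fin n) ℂ, VanishesOn P p → ∀ x ∈ P,
    ∑ b, MvPolynomial.eval (fun b => x b.1 b.2) (MvPolynomial.pderiv b p) * (x * w) b.1 b.2 = 0}

/-- The value at `x` of the linear form with the coefficients `u` in the entries of `x w x⁻¹`. -/
noncomputable def adValue {n : ℕ} {K : Subfield ℂ} (u w : Matrix (Fin n) (Fin n) K) (x : Matrix (Fin n) (Fin n) ℂ) : ℂ :=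
  ∑ b : Fin n × Fin n, (u b.1 b.2 : ℂ) * (x * w.map (algebraMap K ℂ) * x⁻¹) b.1 b.2

/-- The products of commutators of elements of the group `{x y⁻¹ : x, y ∈ P}` of the torsor `P`. -/
def commutators {n : ℕ} (P : Set (Matrix (Fin n) (Fin n) ℂ)) : Submonoid (Matrix (Fin n) (Fin n) ℂ) :=
  Submonoid.closure {h | ∃ x₁ ∈ P, ∃ x₂ ∈ P, ∃ x₃ ∈ P, ∃ x₄ ∈ P,
    h = (x₁ * x₂⁻¹) * (x₃ * x₄⁻¹) * (x₁ * x₂⁻¹)⁻¹ * (x₃ * x₄⁻¹)⁻¹}

open Pool.Agent.X222.LR Pool.Agent.Y123.ST in
theorem sub_iff {n : ℕ} {K : Subfield ℂ} {T : Set (Matrix (Fin n) (Fin n) ℂ)} :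
    IsSubtorsor K T ↔ Pool.Agent.TH127.PT.IsSubtorsor K T := by
  constructor
  · rintro ⟨h1, I, h2⟩
    refine ⟨fun x hx => ((h2 x).1 hx).1, h1, (MvPolynomial.map (algebraMap K ℂ)) '' I, ?_, fun x => ?_⟩
    · rintro _ ⟨p, -, rfl⟩ m
      rw [MvPolynomial.coeff_map]
      exact (p.coeff m).2
    · rw [h2]
      refine and_congr_right fun _ => ⟨?_, ?_⟩
      · rintro h _ ⟨p, hp, rfl⟩
        exact h p hp
      · intro h p hp
        exact h _ ⟨p, hp, rfl⟩
  · intro h
    obtain ⟨I, h1, h2⟩ := h.algebraic
    refine ⟨h.torsor, {p | MvPolynomial.map (algebraMap K ℂ) p ∈ I}, fun x => ?_⟩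
    rw [h2]
    refine and_congr_right fun _ => ⟨?_, ?_⟩
    · intro h3 p hp
      exact h3 _ hp
    · intro h3 p hp
      obtain ⟨P0, hP0⟩ := exists_map p (h1 p hp)
      rw [← hP0]
      exact h3 P0 (by rw [Set.mem_ofPred_eq, hP0]; exact hp)

open Pool.Agent.X222.LR Pool.Agent.Y123.ST in
/-- **The linear relations between the periods of the adjoint object decide.** -/
theorem result (n : ℕ) (K : Subfield ℂ) (hcount : (K : Set ℂ).Countable) (hK : ∀ z : ℂ, IsAlgebraic K z → z ∈ K)
    (P : Set (Matrix (Fin n) (Fin n) ℂ)) (hP : IsSubtorsor K P) (hirr : IsIrred P) (c : Matrix (Fin n) (Fin n) ℂ)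
    (hc : c ∈ P)
    (hlin : ∀ w : Matrix (Fin n) (Fin n) K, w.map (algebraMap K ℂ) ∈ lieDR P →
      ∀ (u : Matrix (Fin n) (Fin n) K) (a : K), adValue u w c = a → ∀ x ∈ P, adValue u w x = a) :
    (∀ T : Set (Matrix (Fin n) (Fin n) ℂ), IsSubtorsor K T → c ∈ T → ∀ h ∈ commutators P, ∀ t ∈ T, h * t ∈ T) ∧
    ((∀ x ∈ P, ∀ y ∈ P, ∃ s : ℂ, ∃ h ∈ commutators P, x * y⁻¹ = s • h) → c.det ∉ K → IsOmega K c P) := by
  have hP' := sub_iff.1 hP
  have hirr' : Irr P := hirr
  have hl : AdRel K P c := by
    intro w hw hwK u hu a ha h0 x hx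
    exact hlin (Matrix.of fun i j => ⟨w i j, hwK i j⟩) hw (Matrix.of fun i j => ⟨u (i, j), hu (i, j)⟩) ⟨a, ha⟩ h0 x hx
  refine ⟨fun T hT hcT h hh t ht => ?_, fun hG hdet => ⟨hP, hc, fun T hT hcT => ?_⟩⟩
  · exact cm_mul hcount hK (sub_iff.1 hT) hP' hirr' hcT hc hl hh t ht
  · exact main_two hcount hK (sub_iff.1 hT) hP' hirr' hcT hc hl hdet hG

end Pool.Agent.Results.MP_caab05_ag.AdjointPeriods
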