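import Pool.Agent.X299.DR.PMain

/-!
# MP_caab05_ag: de Rham-Betti classes with algebraic coefficients on the powers of a variety

Let `X` be a smooth projective variety over an algebraically closed field `K ⊂ ℂ`, for example over
the field of algebraic numbers. A de Rham-Betti class with coefficients in `K` on a power of `X` is
a class `w` in `H^(2j)(X^n, ℚ) ⊗ K` such that `(2 π i)^j w` is in the algebraic de Rham cohomology:
these classes are the polynomial relations over `K` between the periods of `X` which come from
tensors. By Grothendieck's conjecture (the transcendence degree of the field of periods is the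
dimension of the motivic Galois group) all of them are combinations of rational motivated classes.

Call a rational class on a power of `X` common, if it is a de Rham-Betti class, a Hodge class, and an
`ℓ`-adic Tate class for all `ℓ` (for a model over a finitely generated field). We prove
unconditionally: either all de Rham-Betti classes with coefficients in `K` on all powers of `X` are
linear combinations with coefficients in `K` of common classes, or the quotient of the dimensions of
the spaces of the common classes (over `ℚ`) and of the de Rham-Betti classes with coefficients in
`K` (over `K`) on `X^n` tends to zero.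
-/

set_option autoImplicit false

open CategoryTheory AlgebraicGeometry Filter Topology

universe u v w

namespace Pool.Agent.Results.MP_caab05_ag.FieldCoefficientLaw

open Pool.Agent.H914 Pool.Agent.H914.VarClass Pool.Agent.Y129 Pool.Agent.Y121.AHS
  Pool.Agent.X299

theorem result {k : Type u} [Field k] {𝒱 : VarClass k} {ops : CycleOps 𝒱}
    (T : HodgeTheory ops) (P : Periods T) (hP : IsAlgClosed P.V.K) (X : 𝒱.Obj)
    [Nontrivial (T.W.H X)] {I : Type v} (θ : I → GaloisTheory.{u, w} T X) :
    (∀ n, 0 < dimAll T.W.K (IsCommon P θ n)) ∧
    ((∀ n j w, IsDRBOver P (pw X n) j w →
        IsSum P.d.s (P.b.e (pw X n)) (IsCommon P θ n j) w) ∨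
      Tendsto (fun n => (dimAll T.W.K (IsCommon P θ n) : ℝ) /
        dimAll P.U.K (IsDRBOver P (pw X n))) atTop (𝓝 0)) :=
  ⟨common_pos P θ, drbOver_law P θ⟩

end Pool.Agent.Results.MP_caab05_ag.FieldCoefficientLaw
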