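import Pool.Agent.X120.Geo.Tup

/-!
# Grothendieck's period conjecture up to any given degree for almost all terms of geometric sequences of Legendre curves

Let `E_x : y² = x'(x' - 1)(x' - x)` be the Legendre curve, `b_0, …, b_k ≥ 2` integers and `β_{i,1}, …, β_{i,m}` distinct
positive rational numbers smaller than `b_i`. For indices `n_0, …, n_k ≥ 1` consider the abelian variety
`X_n = ∏_{i,t} E_{x_{i,t}}` over `ℚ`, with `x_{i,t} = β_{i,t} / b_i^(n_i)`, for example the products of the curves
`E_{1/2^n}`, or of the curves `E_{β_1/2^n}, …, E_{β_m/2^n}` for one exponent `n`. The field of the periods of `X_n` is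
generated, up to algebraic numbers, by `π` and the `3 m (k + 1)` numbers `K(x_{i,t})`, `E(x_{i,t})`, `K(1 - x_{i,t})`, and
for general parameters its motivic Galois group has dimension `3 m (k + 1) + 1`.

For all indices `n` up to `T`, except at most `C T^k log T` of the `T^(k+1)` tuples, these numbers satisfy no relation of
degree at most `δ` with coefficients in the space spanned by a given finite dimensional `ℚ`-space `V` of complex numbers (for
example the space of the polynomials of bounded degree in `π` and any other numbers) over any number field of degree at most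
`d`. There is no condition on the size of the coefficients, and the constant `C` depends on `V` only through its dimension.
The fibres form a very sparse set: there are only `C log X` parameters of height at most `X` in a geometric sequence.
-/

set_option autoImplicit false

namespace Pool.Agent.Results.MP_caab05_ag.GeometricSequencesOfFibres

open Module

/-- Complete elliptic integral of the first kind, `K(s) = ∫_0^{π/2} dθ / √(1 - s sin² θ)`. -/
noncomputable def K (s : ℝ) : ℝ := ∫ θ in (0 : ℝ)..(Real.pi / 2), 1 / √(1 - s * Real.sin θ ^ 2)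

/-- Complete elliptic integral of the second kind, `E(s) = ∫_0^{π/2} √(1 - s sin² θ) dθ`. -/
noncomputable def E (s : ℝ) : ℝ := ∫ θ in (0 : ℝ)..(Real.pi / 2), √(1 - s * Real.sin θ ^ 2)

/-- The parameter `β_{i,t} / b_i^(n_i)`. -/
noncomputable def par {k m : ℕ} (b : Fin (k + 1) → ℕ) (β : Fin (k + 1) → Fin m → ℚ) (n : Fin (k + 1) → ℕ)
    (i : Fin (k + 1)) (t : Fin m) : ℝ := (β i t : ℝ) / (b i : ℝ) ^ (n i)

/-- The `3 m (k + 1)` numbers `K(x_{i,t})`, `E(x_{i,t})`, `K(1 - x_{i,t})`, with `x_{i,t} = β_{i,t} / b_i^(n_i)`. -/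
noncomputable def periods {k m : ℕ} (b : Fin (k + 1) → ℕ) (β : Fin (k + 1) → Fin m → ℚ) (n : Fin (k + 1) → ℕ)
    (p : Fin (k + 1) × Fin m × Fin 3) : ℂ :=
  ![(K (par b β n p.1 p.2.1) : ℂ), (E (par b β n p.1 p.2.1) : ℂ), (K (1 - par b β n p.1 p.2.1) : ℂ)] p.2.2

/-- The numbers `l` satisfy a nontrivial relation of degree at most `δ` whose coefficients are linear combinations of
elements of `V` over some number field of degree at most `d`. -/
def Related (δ d : ℕ) (V : Submodule ℚ ℂ) {ι : Type} (l : ι → ℂ) : Prop :=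
  ∃ L : IntermediateField ℚ ℂ, FiniteDimensional ℚ L ∧ finrank ℚ L ≤ d ∧
    ∃ P : MvPolynomial ι ℂ, P ≠ 0 ∧ P.totalDegree ≤ δ ∧ (∀ s, P.coeff s ∈ Submodule.span L (V : Set ℂ)) ∧
      MvPolynomial.aeval l P = 0

/-- For all but `C T^k log T` of the `(k+1)`-tuples of indices up to `T` the periods of the product of the Legendre curves
with parameters `β_{i,t} / b_i^(n_i)` satisfy no relation. -/
theorem result {k m : ℕ} (b : Fin (k + 1) → ℕ) (hb : ∀ i, 2 ≤ b i) (β : Fin (k + 1) → Fin m → ℚ)
    (hβ : ∀ i t, 0 < β i t ∧ β i t < b i) (hinj : ∀ i, Function.Injective (β i)) (δ d D : ℕ) :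
    ∃ C : ℝ, ∀ V : Submodule ℚ ℂ, Module.Finite ℚ V → finrank ℚ V ≤ D → ∀ T : ℕ, 2 ≤ T →
      {n : Fin (k + 1) → ℕ | (∀ i, 1 ≤ n i ∧ n i ≤ T) ∧ Related δ d V (periods b β n)}.Finite ∧
      ({n : Fin (k + 1) → ℕ | (∀ i, 1 ≤ n i ∧ n i ≤ T) ∧ Related δ d V (periods b β n)}.ncard : ℝ) ≤
        C * (T : ℝ) ^ k * Real.log T :=
  X120.Geo.few_tuples _ (fun i => X120.Geo.few_legendreQ (β i) (fun t => (hβ i t).1) (hinj i) (hb i)) δ d D

end Pool.Agent.Results.MP_caab05_ag.GeometricSequencesOfFibres
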