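import Pool.Agent.X120.GS.All
import Pool.Agent.Y123.ST.Out

/-!
# The torsor form of the period conjecture along the geometric sequences `x = b^(-n)`, for families with big monodromy and
all number fields

Let `h_i`, `1 ≤ i ≤ k`, be families of G-functions over `ℚ` (with the conditions of Siegel and Galochkin, regular singular
with rational exponents at `∞`) and let `P_i(x)` be square matrices whose entries are polynomials with arbitrary complex
coefficients in the functions `h_{i,l}(x)`: for example the period matrices (rows: Betti, columns: de Rham) of the cohomology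
of families `X_{i,x}` of smooth projective varieties over an open part of the line which contains `0`. Let `Gal(P_i)` be the group
of the matrices `g` such that `P_i` and `g P_i` satisfy the same polynomial relations over `ℂ(x)`: if `P_i` is a fundamental
matrix of the Gauss-Manin system this is the Zariski closure of the monodromy group. Let `M_0` be any object over a number field
with period matrix `C₀`, let `b_i ≥ 2` be integers, and let `c = C₀ ⊕ ⨁_i P_i(b_i^(-n_i))` be the period matrix of the sum of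
`M_0` and of the fibres at `x_i = b_i^(-n_i)`. For a number field `K ⊂ ℂ` a `K`-subtorsor is a subset `T` of `GL` which is
defined by polynomials over `K`, of any degree, and closed under `x y⁻¹ z`. The torsor of motivic isomorphisms of `H_dR` and `H_B`
is one and contains `c`, and the period conjecture implies that it is contained in all others with `c ∈ T`, up to connected
components, for all `K`.

**Theorem.** Let `D` be a natural number. For all but `C T^(k-1) log T` of the tuples `(n_1, …, n_k)` in `[1, T]^k`, in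
particular for all but `C log T` of the first `T` fibres of the sequence `b^(-n)` if `k = 1`, where `C` depends only on `D`,
the `h_i`, the `b_i`, `k`, the ranks and the degrees of the `P_i` as polynomials, the following holds for **all number fields** `K` of
degree at most `D` at once and all `K`-subtorsors `T` with `c ∈ T`.

1. `T` is stable under `1 × ∏_i known_i`, where `known_i` is the commutator group of the group generated by all unipotent
   one-parameter groups in `Gal(P_i)`. This is the connected component of `Gal(P_i)` if this component is semisimple, as is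
   the case for families of smooth projective varieties by a theorem of Deligne.
2. Let `Gal(P_i)` contain, for all `i`, the group `special(B_i)` of the matrices of determinant `1` which respect a form
   `B_i`, where `B_i` is alternating and nondegenerate, or symmetric and nondegenerate of rank `≠ 2`, or zero. Then `T` is, in
   the torsor of all isomorphisms `x_0 ⊕ ⨁ X_i` which respect polarisations (`X_i Q_i X_i^t = μ_i B_i`), the full inverse
   image of its image under `(x_0, det X_1, …, det X_k)`. (In the symplectic case the determinant is superfluous.)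
3. (The absolute case.) Let moreover `M_0 = ℚ(-1)`, `C₀ = 2πi` (or a power of this object). If `T` is contained in the torsor
   of the isomorphisms `z ⊕ ⨁ X_i` with `X_i Q_i X_i^t = z^(w_i) B_i` and `det X_i = δ_i z^(m_i)` then it is equal to this
   torsor. As the torsor of motivic isomorphisms is such a `T` this determines it as well.

Moreover there are functions `D(T) → ∞` and `δ(T) → 0` such that for all but `δ(T) T^k` tuples in `[1, T]^k` all this is true
for all number fields of degree at most `D(T)`.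

All theorems of this kind in the library are about all rational numbers (or all algebraic numbers of a number field) of
height at most `H`, and the number of the exceptions is at least a power `H^c`, or `H^(o(1))`; as there are only `O(log H)`
numbers `b^(-n)` of height at most `H` these theorems say nothing about these. The points `b^(-n)` converge to `0` (the good fibre), but the
coefficients of the `P_i` and the entries of `C₀` are arbitrary complex numbers, so that the theorems of Bombieri, Chudnovsky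
and Galochkin on the values of G-functions at `1/q`, `q` large, which concern relations with rational or algebraic
coefficients (of small height), do not apply either.

Proof. (Relations) Let `V` be a `ℚ`-space of complex numbers of dimension `D'` and let `y = (y_β)` be the vector of the products of the
`h_l` with at most `δ` factors. For `D'` numbers `n_1 > … > n_D'` in a window `[i, (1 + ε) i]` which are separated the
functions `∏_l y_{β_l}(b^(n_1 - n_l) x)` are linearly independent over `ℂ(x)`: the functions `y_β` have no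
common analytic continuation to a disc with all finite singularities (after a base change at `∞` these are killed by the
fundamental matrix), so that the circles of the singularities of the factors are disjoint. Siegel's lemma and the differential equations give
more than `D'` linear forms, and if all `y(b^(-n_l))` satisfied linear relations over `V` this would contradict the dimension of
`V`. So each window contains few exceptions, which gives `O(log T)` for the `n ≤ T`. (Torsors) From this, by the linear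
algebra of `Pool.Agent.Y120.R` over polynomial rings, all relations of bounded degree of `c` hold for
`g c`, `g ∈ 1 × ∏ Gal(P_i)`, and the theorems of `Pool.Agent.Y123.GN` (descent for all number fields,
stability, classical groups) apply.
-/

set_option autoImplicit false

open PowerSeries Filter
open scoped commutatorElement Matrix

namespace Pool.Agent.Results.MP_caab05_ag.GeometricSequencesTorsors

/-- an integer polynomial as a power series with rational coefficients -/
noncomputable def toQ (P : Polynomial ℤ) : PowerSeries ℚ := ((P.map (Int.castRingHom ℚ) : Polynomial ℚ) : PowerSeries ℚ)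

/-- the power series `P(u^e)` -/
noncomputable def atPow (e : ℕ) (P : Polynomial ℤ) : PowerSeries ℂ :=
  ((Polynomial.expand ℂ e (P.map (Int.castRingHom ℂ)) : Polynomial ℂ) : PowerSeries ℂ)

/-- the matrices `G_s` over `ℤ[x]` with `T^s y^(s) = G_s y` for all solutions `y` of `T y' = A y` -/
noncomputable def iter {r : ℕ} (T : Polynomial ℤ) (A : Fin r → Fin r → Polynomial ℤ) : ℕ → Fin r → Fin r → Polynomial ℤ
  | 0 => fun i j => if i = j then 1 else 0
  | s + 1 => fun i j => T * Polynomial.derivative (iter T A s i j) + ∑ l, iter T A s i l * A l j -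
      (s : Polynomial ℤ) * (Polynomial.derivative T * iter T A s i j)

/-- The system `T y' = A y` has a fundamental matrix of solutions of the form `u^(-M) ∑_n Φ_n(u) (log u)^n` with
`u^e = x` and convergent power series `Φ_n`: the point `0` is regular or a regular singularity with rational
exponents. -/
def QuasiUnipotent {r : ℕ} (T : Polynomial ℤ) (A : Fin r → Fin r → Polynomial ℤ) : Prop :=
  ∃ (e M : ℕ) (K : ℝ) (Φ : Matrix (Fin r) (Fin r) (Polynomial (PowerSeries ℂ))), 1 ≤ e ∧ Φ.det ≠ 0 ∧
    (∀ i j n m, ‖coeff m ((Φ i j).coeff n)‖ ≤ K ^ (m + 1)) ∧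
    ∀ i j n, atPow e T * (X * PowerSeries.derivative ℂ ((Φ i j).coeff n) +
        ((n : PowerSeries ℂ) + 1) * (Φ i j).coeff (n + 1) - (M : PowerSeries ℂ) * (Φ i j).coeff n) =
      (e : PowerSeries ℂ) * X ^ e * ∑ l, atPow e (A i l) * (Φ l j).coeff n

/-- `h_1, ..., h_r` are G-functions with rational coefficients which solve the differential system `T y' = A y`, with
the conditions of Siegel and Galochkin, and `∞` is a regular point or a regular singularity with rational exponents of the
system: for `z = 1 / x` the system is `z² T^(z) dy/dz = - A^(z) y` where `T^(z) = z^d T(1/z)` and `A^(z) = z^d A(1/z)` are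
the reflected polynomials. -/
structure GFamily {r : ℕ} (T : Polynomial ℤ) (A : Fin r → Fin r → Polynomial ℤ) (h : Fin r → PowerSeries ℚ) : Prop where
  /-- the denominator is not zero -/
  T_ne : T ≠ 0
  /-- the differential equations -/
  ode : ∀ i, toQ T * PowerSeries.derivative ℚ (h i) = ∑ j, toQ (A i j) * h j
  /-- the coefficients have geometric growth -/
  size : ∃ C : ℝ, ∀ i m, |((coeff m (h i) : ℚ) : ℝ)| ≤ C ^ (m + 1)
  /-- the common denominators of the coefficients have geometric growth -/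
  den : ∃ C : ℝ, ∀ m : ℕ, ∃ d : ℕ, 0 < d ∧ (d : ℝ) ≤ C ^ (m + 1) ∧ ∀ i, ∀ j ≤ m, ∃ a : ℤ, (d : ℚ) * coeff j (h i) = a
  /-- Galochkin's condition: the common denominators of the matrices `G_s / s!` have geometric growth -/
  galochkin : ∃ C : ℝ, ∀ m : ℕ, ∃ d : ℕ, 0 < d ∧ (d : ℝ) ≤ C ^ (m + 1) ∧ ∀ s ≤ m, ∀ i j,
    ∃ H : Polynomial ℤ, (d : Polynomial ℤ) * iter T A s i j = (s.factorial : Polynomial ℤ) * H
  /-- the local exponents at `∞` are rational and the singularity is regular -/
  regular_infty : ∃ d : ℕ, T.natDegree ≤ d ∧ (∀ i j, (A i j).natDegree ≤ d) ∧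
    QuasiUnipotent (Polynomial.X ^ 2 * T.reflect d) (fun i j => - (A i j).reflect d)

theorem iter_eq {r : ℕ} (T : Polynomial ℤ) (A : Fin r → Fin r → Polynomial ℤ) (s : ℕ) :
    iter T A s = Pool.Agent.Y120.GH.itm T A s := by
  induction s with
  | zero => rfl
  | succ s ih =>
    funext i j
    rw [iter, Pool.Agent.Y120.GH.itm, ih]

theorem qu_eq {r : ℕ} {T : Polynomial ℤ} {A : Fin r → Fin r → Polynomial ℤ} (h : QuasiUnipotent T A) :
    Pool.Agent.Y120.GH.QU0 T A := by
  obtain ⟨e, M, K, Φ, he, hdet, hc, heq⟩ := h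
  have he0 : e ≠ 0 := by omega
  refine ⟨e, he0, M, K, Φ, hc, fun i j n => ?_, hdet⟩
  have h1 := heq i j n
  simp only [atPow] at h1
  rw [Pool.Agent.Y120.GH.expand_poly he0]
  simp only [Pool.Agent.Y120.GH.expand_poly he0]
  exact h1

theorem fam {r : ℕ} {T : Polynomial ℤ} {A : Fin r → Fin r → Polynomial ℤ} {h : Fin r → PowerSeries ℚ}
    (hG : GFamily T A h) {b : ℕ} (hb : 2 ≤ b) (δ : ℕ) : Pool.Agent.X120.GS.FamG δ h b := by
  obtain ⟨d, hTd, hAd, hqu⟩ := hG.regular_infty
  obtain ⟨B, a, M, h1, h2, h3⟩ := Pool.Agent.X120.GS.family_mainS hG.T_ne hG.ode hG.size hG.den (by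
    obtain ⟨C, hC⟩ := hG.galochkin
    refine ⟨C, fun m => ?_⟩
    obtain ⟨d, h1, h2, h3⟩ := hC m
    refine ⟨d, h1, h2, fun s hs i' j' => ?_⟩
    rw [← iter_eq]
    exact h3 s hs i' j') hTd hAd (qu_eq hqu) δ
  exact ⟨hG.size, B, a, M, h1, h2, h3 b hb⟩

section family
variable {r n : ℕ}

/-- The period matrix at `x = 1 / s`: the entries are the polynomials `P a b` in the `h_l(1 / s)`. -/
noncomputable def perMat (h : Fin r → PowerSeries ℚ) (P : Fin n → Fin n → MvPolynomial (Fin r) ℂ) (s : ℝ) :
    Matrix (Fin n) (Fin n) ℂ :=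
  Matrix.of fun a b => MvPolynomial.aeval
    (fun l => ((∑' m : ℕ, ((coeff m (h l) : ℚ) : ℝ) * (1 / s) ^ m : ℝ) : ℂ)) (P a b)

/-- the polynomials in more variables -/
noncomputable def more (P : Fin n → Fin n → MvPolynomial (Fin r) ℂ) : Fin n → Fin n → MvPolynomial (Option (Fin r)) ℂ :=
  fun a b => MvPolynomial.rename some (P a b)

theorem perMat_eq (h : Fin r → PowerSeries ℚ) (P : Fin n → Fin n → MvPolynomial (Fin r) ℂ) (s : ℝ) :
    perMat h P s = Pool.Agent.Y120.R.pM h (more P) s := by
  ext a b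
  show MvPolynomial.aeval _ (P a b) = MvPolynomial.aeval _ (MvPolynomial.rename some (P a b))
  rw [MvPolynomial.aeval_rename]
  rfl

/-- the value at `x = 1 / s` and at the matrix `Z` of a polynomial in the entries of a matrix over `ℂ[x]` -/
noncomputable def relAt (R : MvPolynomial (Fin n × Fin n) (Polynomial ℂ)) (s : ℝ) (Z : Matrix (Fin n) (Fin n) ℂ) : ℂ :=
  MvPolynomial.eval₂ (Polynomial.evalRingHom (1 / (s : ℂ))) (fun v => Z v.1 v.2) R

/-- `g P(x)` satisfies all polynomial relations over `ℂ[x]` which `P(x)` satisfies. -/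
def Preserves (h : Fin r → PowerSeries ℚ) (P : Fin n → Fin n → MvPolynomial (Fin r) ℂ)
    (g : Matrix (Fin n) (Fin n) ℂ) : Prop :=
  ∀ R : MvPolynomial (Fin n × Fin n) (Polynomial ℂ), (∀ᶠ s : ℝ in Filter.atTop, relAt R s (perMat h P s) = 0) →
    ∀ᶠ s : ℝ in Filter.atTop, relAt R s (g * perMat h P s) = 0

theorem preserves_iff (h : Fin r → PowerSeries ℚ) (P : Fin n → Fin n → MvPolynomial (Fin r) ℂ)
    (g : Matrix (Fin n) (Fin n) ℂ) : Preserves h P g ↔ Pool.Agent.Y123.GN.Prs h (more P) g := by
  unfold Preserves Pool.Agent.Y123.GN.Prs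
  simp only [perMat_eq]
  exact Iff.rfl

/-- The group of the matrices `g` such that `g` and `g⁻¹` preserve the relations. If `P` is a fundamental matrix of a linear
differential system over `ℂ(x)` this is its differential Galois group. -/
noncomputable def Gal (h : Fin r → PowerSeries ℚ) (P : Fin n → Fin n → MvPolynomial (Fin r) ℂ) :
    Subgroup (Matrix.GeneralLinearGroup (Fin n) ℂ) where
  carrier := {g | Preserves h P (g : Matrix (Fin n) (Fin n) ℂ) ∧
    Preserves h P ((g⁻¹ : Matrix.GeneralLinearGroup (Fin n) ℂ) : Matrix (Fin n) (Fin n) ℂ)}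
  mul_mem' := fun hg hg' => by
    simp only [Set.mem_setOf_eq, preserves_iff] at hg hg' ⊢
    exact (Pool.Agent.Y123.GN.Gs h (more P)).mul_mem' hg hg'
  one_mem' := by
    simp only [Set.mem_setOf_eq, preserves_iff]
    exact (Pool.Agent.Y123.GN.Gs h (more P)).one_mem'
  inv_mem' := fun hg => by
    simp only [Set.mem_setOf_eq, preserves_iff] at hg ⊢
    exact (Pool.Agent.Y123.GN.Gs h (more P)).inv_mem' hg

theorem gal_eq (h : Fin r → PowerSeries ℚ) (P : Fin n → Fin n → MvPolynomial (Fin r) ℂ) :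
    Gal h P = Pool.Agent.Y123.GN.Gs h (more P) := by
  ext g
  show Preserves h P _ ∧ Preserves h P _ ↔ Pool.Agent.Y123.GN.Prs h (more P) _ ∧ Pool.Agent.Y123.GN.Prs h (more P) _
  rw [preserves_iff, preserves_iff]

/-- the nilpotent matrices `N` with `exp (t N) ∈ H` for all `t` -/
def nilpotents (H : Subgroup (Matrix.GeneralLinearGroup (Fin n) ℂ)) : Set (Matrix (Fin n) (Fin n) ℂ) :=
  {N | IsNilpotent N ∧ ∀ t : ℂ, ∃ u ∈ H, (u : Matrix (Fin n) (Fin n) ℂ) = IsNilpotent.exp (t • N)}

/-- the subgroup generated by all unipotent one-parameter groups in `H` -/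
def unipotents (H : Subgroup (Matrix.GeneralLinearGroup (Fin n) ℂ)) : Subgroup (Matrix.GeneralLinearGroup (Fin n) ℂ) :=
  Subgroup.closure {u | ∃ N ∈ nilpotents H, ∃ t : ℂ, (u : Matrix (Fin n) (Fin n) ℂ) = IsNilpotent.exp (t • N)}

/-- the commutator group of the group generated by the unipotent one-parameter groups -/
def known (H : Subgroup (Matrix.GeneralLinearGroup (Fin n) ℂ)) : Subgroup (Matrix.GeneralLinearGroup (Fin n) ℂ) :=
  ⁅unipotents H, unipotents H⁆

/-- the matrices of determinant `1` which respect the form `B`; the special linear group for `B = 0` -/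
def special (B : Matrix (Fin n) (Fin n) ℂ) : Subgroup (Matrix.GeneralLinearGroup (Fin n) ℂ) where
  carrier := {g | (g : Matrix (Fin n) (Fin n) ℂ).det = 1 ∧
    (g : Matrix (Fin n) (Fin n) ℂ) * B * (g : Matrix (Fin n) (Fin n) ℂ)ᵀ = B}
  mul_mem' := fun hg hg' => (Pool.Agent.Y123.GN.GB B).mul_mem' hg hg'
  one_mem' := (Pool.Agent.Y123.GN.GB B).one_mem'
  inv_mem' := fun hg => (Pool.Agent.Y123.GN.GB B).inv_mem' hg

/-- nondegenerate alternating forms -/
def Symplectic (B : Matrix (Fin n) (Fin n) ℂ) : Prop := IsUnit B ∧ Bᵀ = -B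

/-- The form is zero, or nondegenerate and alternating, or nondegenerate and symmetric of rank different from `2`. -/
def Classical (B : Matrix (Fin n) (Fin n) ℂ) : Prop := B = 0 ∨ Symplectic B ∨ (IsUnit B ∧ Bᵀ = B ∧ n ≠ 2)

end family

/-- `T` is (the set of complex points of) a `K`-subtorsor of `GL_B = Iso (M_dR, M_B)`: it is closed under `x y⁻¹ z`, and
it is defined in `GL_B` by polynomials with coefficients in `K`. -/
def IsSubtorsor (K : Subfield ℂ) {B : Type} [Fintype B] [DecidableEq B] (T : Set (Matrix B B ℂ)) : Prop :=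
  (∀ x ∈ T, ∀ y ∈ T, ∀ z ∈ T, x * y⁻¹ * z ∈ T) ∧ ∃ I : Set (MvPolynomial (B × B) K), ∀ x : Matrix B B ℂ, x ∈ T ↔
    IsUnit x ∧ ∀ p ∈ I, MvPolynomial.eval (fun b => x b.1 b.2) (MvPolynomial.map (algebraMap K ℂ) p) = 0

section
variable {k r : ℕ} {n : Fin k → ℕ} {ρ : Fin k → ℕ}

/-- the block matrix `x ⊕ X_1 ⊕ … ⊕ X_k` -/
noncomputable def total (x : Matrix (Fin r) (Fin r) ℂ) (X : ∀ i, Matrix (Fin (n i)) (Fin (n i)) ℂ) :
    Matrix (Fin r ⊕ Σ i, Fin (n i)) (Fin r ⊕ Σ i, Fin (n i)) ℂ :=
  Matrix.fromBlocks x 0 0 (Matrix.blockDiagonal' X)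

/-- the isomorphisms `X_i` respect the polarisations `Q_i` (de Rham) and `B_i` (Betti) up to the factors `μ_i` -/
def Respects (B Q : ∀ i, Matrix (Fin (n i)) (Fin (n i)) ℂ) (μ : Fin k → ℂ)
    (X : ∀ i, Matrix (Fin (n i)) (Fin (n i)) ℂ) : Prop :=
  (∀ i, μ i ≠ 0) ∧ ∀ i, X i * Q i * (X i)ᵀ = μ i • B i

/-- The isomorphisms `z ⊕ … ⊕ z ⊕ X_1 ⊕ … ⊕ X_k` of an `r`-fold sum of the object `ℚ(-1)` and of the `M_i` which respect the
polarisations, with values in `ℚ(-w_i)`, and the identifications of `det M_i` with `ℚ(-m_i)` up to a twist. -/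
def torsorOf (r : ℕ) (B Q : ∀ i, Matrix (Fin (n i)) (Fin (n i)) ℂ) (w m : Fin k → ℤ) (δ : Fin k → ℂ) :
    Set (Matrix (Fin r ⊕ Σ i, Fin (n i)) (Fin r ⊕ Σ i, Fin (n i)) ℂ) :=
  {y | ∃ z : ℂ, z ≠ 0 ∧ ∃ X : ∀ i, Matrix (Fin (n i)) (Fin (n i)) ℂ, y = total (z • 1) X ∧
    ∀ i, X i * Q i * (X i)ᵀ = z ^ (w i) • B i ∧ (Symplectic (B i) ∨ (X i).det = δ i * z ^ (m i))}

/-- The conclusion for one tuple; `Z i` is the period matrix of the fibre of the `i`-th family. -/
def Good (D : ℕ) (C₀ : Matrix (Fin r) (Fin r) ℂ) (h : ∀ i, Fin (ρ i) → PowerSeries ℚ)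
    (P : ∀ i, Fin (n i) → Fin (n i) → MvPolynomial (Fin (ρ i)) ℂ)
    (Z : ∀ i, Matrix (Fin (n i)) (Fin (n i)) ℂ) : Prop :=
  ∀ K : Subfield ℂ, FiniteDimensional ℚ K → Module.finrank ℚ K ≤ D →
  ∀ T : Set (Matrix (Fin r ⊕ Σ i, Fin (n i)) (Fin r ⊕ Σ i, Fin (n i)) ℂ), IsSubtorsor K T → total C₀ Z ∈ T →
  -- 1: stability
  (∀ g : ∀ i, Matrix.GeneralLinearGroup (Fin (n i)) ℂ, (∀ i, g i ∈ known (Gal (h i) (P i))) →
    ∀ x ∈ T, total 1 (fun i => (g i : Matrix (Fin (n i)) (Fin (n i)) ℂ)) * x ∈ T) ∧
  -- 2: big monodromy, relative case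
  (∀ B : ∀ i, Matrix (Fin (n i)) (Fin (n i)) ℂ, (∀ i, Classical (B i)) → (∀ i, special (B i) ≤ Gal (h i) (P i)) →
    ∀ (Q : ∀ i, Matrix (Fin (n i)) (Fin (n i)) ℂ) (μ : Fin k → ℂ) (x₀ : Matrix (Fin r) (Fin r) ℂ)
      (X Y : ∀ i, Matrix (Fin (n i)) (Fin (n i)) ℂ), Respects B Q μ X → Respects B Q μ Y →
      (∀ i, Symplectic (B i) ∨ (X i).det = (Y i).det) → total x₀ X ∈ T → total x₀ Y ∈ T) ∧
  -- 3: big monodromy, absolute case
  (0 < r → C₀ = (2 * Real.pi * Complex.I : ℂ) • 1 →
    ∀ B : ∀ i, Matrix (Fin (n i)) (Fin (n i)) ℂ, (∀ i, Classical (B i)) → (∀ i, special (B i) ≤ Gal (h i) (P i)) →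
    ∀ (Q : ∀ i, Matrix (Fin (n i)) (Fin (n i)) ℂ) (w m : Fin k → ℤ) (δ : Fin k → ℂ),
      T ⊆ torsorOf r B Q w m δ → T = torsorOf r B Q w m δ)

theorem good_of {D : ℕ} {C₀ : Matrix (Fin r) (Fin r) ℂ} {h : ∀ i, Fin (ρ i) → PowerSeries ℚ}
    {P : ∀ i, Fin (n i) → Fin (n i) → MvPolynomial (Fin (ρ i)) ℂ} {t : Fin k → ℕ}
    (hg : Pool.Agent.Y123.GN.GoodU D C₀ h (Pool.Agent.X120.GS.soM P) t) :
    Good D C₀ h P fun i => perMat (h i) (P i) (t i : ℝ) := by
  intro K hKf hKD T hT hcT
  have hT' := Pool.Agent.Y123.ST.subT_iff.1 hT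
  simp only [perMat_eq] at hcT
  have h1 := hg K hKf hKD T hT' hcT
  have hGal : ∀ i, Gal (h i) (P i) = Pool.Agent.Y123.GN.Gs (h i) (Pool.Agent.X120.GS.soM P i) := fun i => gal_eq _ _
  simp only [hGal]
  have hKalg : ∀ x ∈ K, IsAlgebraic ℚ x := by
    intro x hx
    have : NumberField K := { to_charZero := inferInstance, to_finiteDimensional := hKf }
    have h6 : IsAlgebraic ℚ (⟨x, hx⟩ : K) := Algebra.IsAlgebraic.isAlgebraic _
    exact h6.algebraMap (A := ℂ)
  have h2 : ∀ B : ∀ i, Matrix (Fin (n i)) (Fin (n i)) ℂ, (∀ i, Classical (B i)) →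
      (∀ i, special (B i) ≤ Pool.Agent.Y123.GN.Gs (h i) (Pool.Agent.X120.GS.soM P i)) →
      ∀ g : ∀ i, (Matrix (Fin (n i)) (Fin (n i)) ℂ)ˣ, (∀ i, g i ∈ Pool.Agent.Y123.GN.GB (B i)) →
      ∀ x ∈ T, Pool.Agent.Y123.GN.EG 1 (fun i => (g i : Matrix (Fin (n i)) (Fin (n i)) ℂ)) * x ∈ T := by
    intro B hB hBG g hgB x hx
    exact h1 g (fun i => Pool.Agent.Y123.GN.mono_comm (hBG i) (Pool.Agent.Y123.GN.cl_perf (hB i)) (hgB i)) x hx
  refine ⟨h1, ?_, ?_⟩
  · intro B hB hBG Q μ x₀ X Y hX hY hd hx
    exact Pool.Agent.Y123.GN.fibre_full hT' (h2 B hB hBG) hX.1 hx hX.2 hY.2 hd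
  · intro hr hC₀ B hB hBG Q w m δ hTF
    have hne : Nonempty (Fin r) := ⟨⟨0, hr⟩⟩
    rw [hC₀] at hcT
    exact Pool.Agent.Y123.GN.absolute hKalg hT' hcT (h2 B hB hBG) hTF

end

/-- **The theorem.** `P i` is the period matrix of the `i`-th family, `b i ≥ 2` and `x i = b i ^ (- t i)`. -/
theorem result (k e r : ℕ) (ρ n : Fin k → ℕ) (T : Fin k → Polynomial ℤ)
    (A : ∀ i, Fin (ρ i) → Fin (ρ i) → Polynomial ℤ) (h : ∀ i, Fin (ρ i) → PowerSeries ℚ)
    (hG : ∀ i, GFamily (T i) (A i) (h i)) (b : Fin k → ℕ) (hb : ∀ i, 2 ≤ b i) :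
    -- number fields of degree at most `D`
    (∀ D : ℕ, ∃ C : ℝ, 0 ≤ C ∧ ∀ P : ∀ i, Fin (n i) → Fin (n i) → MvPolynomial (Fin (ρ i)) ℂ,
      (∀ i a b, (P i a b).totalDegree ≤ e) → ∀ C₀ : Matrix (Fin r) (Fin r) ℂ, ∀ N : ℕ, 2 ≤ N →
      (({t : Fin k → ℕ | (∀ i, 1 ≤ t i ∧ t i ≤ N) ∧
        ¬ Good D C₀ h P fun i => perMat (h i) (P i) ((b i : ℝ) ^ t i)}.ncard : ℕ) : ℝ) * N ≤
        C * (N : ℝ) ^ k * Real.log N) ∧
    -- number fields of degree at most `D N`, which tends to infinity
    (∃ (D : ℕ → ℕ) (δ : ℕ → ℝ), Tendsto D atTop atTop ∧ Tendsto δ atTop (nhds 0) ∧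
      ∀ P : ∀ i, Fin (n i) → Fin (n i) → MvPolynomial (Fin (ρ i)) ℂ,
      (∀ i a b, (P i a b).totalDegree ≤ e) → ∀ C₀ : Matrix (Fin r) (Fin r) ℂ, ∀ N : ℕ, 2 ≤ N →
      (({t : Fin k → ℕ | (∀ i, 1 ≤ t i ∧ t i ≤ N) ∧
        ¬ Good (D N) C₀ h P fun i => perMat (h i) (P i) ((b i : ℝ) ^ t i)}.ncard : ℕ) : ℝ) ≤ δ N * (N : ℝ) ^ k) := by
  classical
  have hmain : ∀ D : ℕ, ∃ C : ℝ, 0 ≤ C ∧ ∀ P : ∀ i, Fin (n i) → Fin (n i) → MvPolynomial (Fin (ρ i)) ℂ,
      (∀ i a b, (P i a b).totalDegree ≤ e) → ∀ C₀ : Matrix (Fin r) (Fin r) ℂ, ∀ N : ℕ, 2 ≤ N →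
      (({t : Fin k → ℕ | (∀ i, 1 ≤ t i ∧ t i ≤ N) ∧
        ¬ Good D C₀ h P fun i => perMat (h i) (P i) ((b i : ℝ) ^ t i)}.ncard : ℕ) : ℝ) * N ≤
        C * (N : ℝ) ^ k * Real.log N := by
    intro D
    obtain ⟨C, hC, hmain⟩ := Pool.Agent.X120.GS.all_mainS k D e r ρ n h hb fun i δ => fam (hG i) (hb i) δ
    refine ⟨C, hC, ?_⟩
    intro P hP C₀ N hN
    set E := {t : Fin k → ℕ | (∀ i, 1 ≤ t i ∧ t i ≤ N) ∧
        ¬ Good D C₀ h P fun i => perMat (h i) (P i) ((b i : ℝ) ^ t i)} with hE
    have hfin : E.Finite := by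
      refine (Set.finite_Iic (fun _ : Fin k => N)).subset ?_
      intro t ht i
      exact (ht.1 i).2
    rw [Set.ncard_eq_toFinset_card E hfin]
    refine hmain P hP C₀ N hN _ fun t ht => ?_
    have ht' : t ∈ E := hfin.mem_toFinset.1 ht
    refine ⟨ht'.1, fun hgood => ht'.2 ?_⟩
    have h1 := good_of hgood
    have h2 : (fun i => perMat (h i) (P i) ((Pool.Agent.X120.GS.tp b t i : ℕ) : ℝ)) =
        fun i => perMat (h i) (P i) ((b i : ℝ) ^ t i) := by
      funext i
      have h3 : ((Pool.Agent.X120.GS.tp b t i : ℕ) : ℝ) = (b i : ℝ) ^ t i := by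
        unfold Pool.Agent.X120.GS.tp
        push_cast
        rfl
      rw [h3]
    rw [h2] at h1
    exact h1
  refine ⟨hmain, ?_⟩
  choose C hC hcount using hmain
  obtain ⟨D, hD, hδ⟩ := Pool.Agent.Y123.GN.diag_seq (fun D N => C D * (Real.log N / N)) (by
      intro D
      have h1 : Tendsto (fun N : ℕ => Real.log N / N) atTop (nhds 0) :=
        (Real.isLittleO_log_id_atTop.tendsto_div_nhds_zero).comp tendsto_natCast_atTop_atTop
      have h5 := h1.const_mul (C D)
      rw [mul_zero] at h5
      exact h5)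
  refine ⟨D, _, hD, hδ, ?_⟩
  intro P hP C₀ N hN
  have h1 := hcount (D N) P hP C₀ N hN
  have hN0 : (0 : ℝ) < N := by
    have : 0 < N := by omega
    exact_mod_cast this
  rw [← le_div_iff₀ hN0] at h1
  refine h1.trans (le_of_eq ?_)
  ring

end Pool.Agent.Results.MP_caab05_ag.GeometricSequencesTorsors
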